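import Pool.Agent.W_7d29a1_NV10.SR10
import Pool.Agent.W_7d29a1_NV24.All24
import Pool.Agent.W_7d29a1_NV.AvgS10

/-!
Spatial roughness on the even sublattice: in every dimension, at every tilt of very strong disorder,
the mean over the even sites of a box of the mean modulus of the spatial increment of the free
energy is unbounded, uniformly in the length.
-/

namespace Pool.Agent.W_7d29a1_NV10

open MeasureTheory ProbabilityTheory Filter Topology Pool.Agent.W_MP_7d29a1_pr
  Pool.Agent.W_7d29a1_h46 Pool.Agent.W_7d29a1_h46u Pool.Agent.W_7d29a1_D2.B35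
  Pool.Agent.W_7d29a1_Q29 Pool.Agent.W_7d29a1_NV Pool.Agent.W_7d29a1_NV24

variable {d : ℕ} {ρ : Measure ℝ} [IsProbabilityMeasure ρ]

/-- **Theorem SR, even form.** In every dimension, for every law, at every tilt of very strong
disorder: for every `K` there are `R` and `n₀` such that for every `n ≥ n₀` some site `y` of the
box of radius `R` and of even parity has `E |log Z_n (y) - log Z_n (0)| > K`. -/
theorem srAll10 (hd : 0 < d) (hρ : EM ρ) (hnc : ∀ c : ℝ, ρ {c} ≠ 1) {β : ℝ} (hβ : 0 < β)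
    (h : Vec d) (hV : VSD ρ β h) : AvgS10.RghQ ρ β h := by
  intro K
  obtain ⟨b, hb⟩ := (eventually_HB21 hnc).exists
  have hE := Eq41.eqT41 (ρ := ρ) hd hβ hb
  have hK := kapTm77 (ρ := ρ) hd hb hE
  have hO := O72.onep72 hb oneT hE (M53.marT53 d) hK
  have hT := twoR24 hd hρ hb oneT twoT6 hE hK (mix96 hb)
  have hC := coreT24 hb hO hT (monT31 hd ρ hb) (varL42 hd hρ hβ.ne' hb)
  exact sr10 hd hρ hb (mix96 hb) hC (mul10 hd hρ β) h hV K

/-- **Theorem SR in the mean.** For every `K` and every large `R`, for all large `n`: the mean over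
the even sites `y` of the box of radius `R` of `E |log Z_n (y) - log Z_n (0)|` is at least `K`. -/
theorem avgAll10 (hd : 0 < d) (hρ : EM ρ) (hnc : ∀ c : ℝ, ρ {c} ≠ 1) {β : ℝ} (hβ : 0 < β)
    (h : Vec d) (hV : VSD ρ β h) (K : ℝ) :
    ∃ R₀ : ℕ, ∀ R : ℕ, R₀ ≤ R → ∃ n₀ : ℕ, ∀ n : ℕ, n₀ ≤ n →
      K * (AvgS10.evB d R).card ≤ ∑ y ∈ AvgS10.evB d R,
        ∫ η, |X β h (sh 0 y η) n - X β h η n| ∂(law d ρ) :=
  AvgS10.avgS10 hd hρ β h (srAll10 hd hρ hnc hβ h hV) K

end Pool.Agent.W_7d29a1_NV10
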