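import Pool.Agent.W_7d29a1_NV24.HI24
import Pool.Agent.W_7d29a1_NV.IncS10

/-!
Spatial roughness on the even sublattice: the gain of an insertion (the proof is that of
`W_7d29a1_NV24/HI24.lean`).
-/

set_option autoImplicit false

namespace Pool.Agent.W_7d29a1_NV10

open MeasureTheory ProbabilityTheory Filter Topology Pool.Agent.W_MP_7d29a1_pr
  Pool.Agent.W_7d29a1_h46 Pool.Agent.W_7d29a1_h46u Pool.Agent.W_7d29a1_D2.B35
  Pool.Agent.W_7d29a1_Q29 Pool.Agent.W_7d29a1_NV Pool.Agent.W_7d29a1_NV24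

variable {d : ℕ} {ρ : Measure ℝ} [IsProbabilityMeasure ρ]

/-- (HI) The gain of the insertion of `m` fresh rows. -/
theorem hi10 (hd : 0 < d) (hρ : EM ρ) (β : ℝ) (h : Vec d) {n m τ R : ℕ} (z0 : Site d)
    (hmR : m ≤ R) (hz0 : z0 ∈ boxF d R) {σ r : ℝ}
    (hr : ∫ η, |X β h η n - U24 ρ β h n τ η| ∂(law d ρ) ≤ r)
    (hz1 : Even ((∑ j, z0 j) - m))
    (hs : ∀ v ∈ boxF d (2 * R), Even (∑ j, v j) →
      ∫ η, |X β h (sh 0 v η) n - X β h η n| ∂(law d ρ) ≤ σ) :
    ∫ w, |X β h (insE τ m z0 w.1 w.2) (n + m) - X β h w.1 n - A ρ β h m|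
      ∂((law d ρ).prod (law d ρ)) ≤
      (A ρ β h (n + m) - A ρ β h n - A ρ β h m) +
        ∫ η, |X β h η m - A ρ β h m| ∂(law d ρ) + 2 * r + 2 * σ := by
  set μ2 := (law d ρ).prod (law d ρ) with hμ2
  have hmp := mp_ins (d := d) (ρ := ρ) τ m z0
  have hX : ∀ k, Integrable (fun η => X β h η k) (law d ρ) := fun k => intX24 hd hρ β h k
  set U := U24 (d := d) ρ β h n τ with hU
  -- the four functions of the new environment
  set a1 : Env d → ℝ := fun η => X β h η (m + n) - (X β h η m + ∑ s : Fin m → Step d,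
    FreeU_p β h m s η * X β h (sh m (pos s m) η) n) with ha1
  set a2 : Env d → ℝ := fun η => |X β h η m - A ρ β h m| with ha2
  set G3 : (Fin m → Step d) → Env d → ℝ := fun s η =>
    |X β h (sh 0 (pos s m) η) n - U (sh 0 (pos s m) η)| with hG3
  set a3 : Env d → ℝ := fun η => ∑ s, FreeU_p β h m s η * G3 s (sh m 0 η) with ha3
  set G4 : (Fin m → Step d) → Env d → ℝ := fun s η =>
    |U (sh 0 (pos s m) η) - U (sh 0 z0 η)| with hG4
  set a4 : Env d → ℝ := fun η => ∑ s, FreeU_p β h m s η * G4 s (sh m 0 η) with ha4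
  have hUi : Integrable U (law d ρ) := U_int24 hd hρ β h n τ
  have hUm : Measurable U := U_meas24 β h n τ
  have hshi : ∀ v, Integrable (fun η : Env d => X β h (sh 0 v η) n) (law d ρ) := fun v =>
    (memSh24 hd hρ β h n 0 v).integrable one_le_two
  have hUshi : ∀ v, Integrable (fun η : Env d => U (sh 0 v η)) (law d ρ) := fun v =>
    (mp_sh 0 v).integrable_comp_of_integrable hUi
  have hUd : ∀ v : Site d, DependsOn (fun η : Env d => U (sh 0 v η)) {p : ℕ × Site d | 1 ≤ p.1} := by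
    intro v η η' hη
    refine U_dep24 β h n τ fun p hp => ?_
    refine hη (p.1 + 0, p.2 + v) ?_
    have : ¬ p.1 ≤ τ := hp
    change 1 ≤ p.1 + 0
    omega
  have hXd : ∀ v : Site d, DependsOn (fun η : Env d => X β h (sh 0 v η) n)
      {p : ℕ × Site d | 1 ≤ p.1} := by
    intro v η η' hη
    have h2 : Z β h (sh 0 v η) n = Z β h (sh 0 v η') n := by
      refine dependsOn_Z β h n fun p hp => ?_
      exact hη (p.1 + 0, p.2 + v) hp.1
    simp only
    unfold X
    rw [h2]
  -- integrals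
  have hS := avg24 (ρ := ρ) hd β h m (fun s η => X β h (sh 0 (pos s m) η) n)
    (fun s => (measurable_X β h n).comp (measurable_sh 0 _)) (fun s => hshi _) (fun s => hXd _)
  have esh : ∀ (x : Site d) (η : Env d), sh 0 x (sh m 0 η) = sh m x η := by
    intro x η
    funext p
    unfold sh
    simp
  simp only [esh] at hS
  have hSv : ∫ η, ∑ s : Fin m → Step d, FreeU_p β h m s η * X β h (sh m (pos s m) η) n
      ∂(law d ρ) = A ρ β h n := by
    rw [hS.2]
    obtain ⟨_, h2⟩ := intp24 (ρ := ρ) hd β h m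
    have h3 : ∀ s : Fin m → Step d, ∫ η, X β h (sh 0 (pos s m) η) n ∂(law d ρ) = A ρ β h n :=
      fun s => integral_sh 0 _ (measurable_X β h n)
    simp only [h3]
    rw [← Finset.sum_mul, h2, one_mul]
  have ia1 : Integrable a1 (law d ρ) := (hX (m + n)).sub ((hX m).add hS.1)
  have va1 : ∫ η, a1 η ∂(law d ρ) = A ρ β h (n + m) - A ρ β h n - A ρ β h m := by
    have h4 : ∫ η, (X β h η m + ∑ s : Fin m → Step d,
        FreeU_p β h m s η * X β h (sh m (pos s m) η) n) ∂(law d ρ) = A ρ β h m + A ρ β h n := by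
      rw [integral_add (hX m) hS.1, hSv]
      rfl
    have i4 : Integrable (fun η => X β h η m + ∑ s : Fin m → Step d,
        FreeU_p β h m s η * X β h (sh m (pos s m) η) n) (law d ρ) := (hX m).add hS.1
    have h5 : ∫ η, a1 η ∂(law d ρ) = ∫ η, X β h η (m + n) ∂(law d ρ) -
        ∫ η, (X β h η m + ∑ s : Fin m → Step d,
          FreeU_p β h m s η * X β h (sh m (pos s m) η) n) ∂(law d ρ) :=
      integral_sub (hX (m + n)) i4
    rw [h5, h4, add_comm n m]
    have h6 : ∫ η, X β h η (m + n) ∂(law d ρ) = A ρ β h (m + n) := rfl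
    rw [h6]
    ring
  have a1nn : ∀ η, 0 ≤ a1 η := fun η => sub_nonneg.2 (FreeU_pt hd β h m n η)
  have ia2 : Integrable a2 (law d ρ) := ((hX m).sub (integrable_const _)).abs
  have hG3i : ∀ s, Integrable (G3 s) (law d ρ) := fun s => ((hshi _).sub (hUshi _)).abs
  have hG3m : ∀ s, Measurable (G3 s) := fun s => measurable_norm.comp
    (((measurable_X β h n).comp (measurable_sh 0 _)).sub (hUm.comp (measurable_sh 0 _)))
  have hG3d : ∀ s, DependsOn (G3 s) {p : ℕ × Site d | 1 ≤ p.1} := by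
    intro s η η' hη
    simp only [hG3]
    have h1 := hXd (pos s m) hη
    have h2 := hUd (pos s m) hη
    simp only at h1 h2
    rw [h1, h2]
  have hG3v : ∀ s, ∫ η, G3 s η ∂(law d ρ) ≤ r := by
    intro s
    have h1 : Measurable fun η : Env d => |X β h η n - U η| :=
      measurable_norm.comp ((measurable_X β h n).sub hUm)
    have h2 := integral_sh (ρ := ρ) 0 (pos s m) h1
    calc ∫ η, G3 s η ∂(law d ρ) = ∫ η, |X β h η n - U η| ∂(law d ρ) := h2
      _ ≤ r := hr
  have ia3 := (avg24 (ρ := ρ) hd β h m G3 hG3m hG3i hG3d).1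
  have va3 := avg_le24 (ρ := ρ) hd β h m G3 hG3m hG3i hG3d hG3v
  have hG4i : ∀ s, Integrable (G4 s) (law d ρ) := fun s => ((hUshi _).sub (hUshi _)).abs
  have hG4m : ∀ s, Measurable (G4 s) := fun s => measurable_norm.comp
    ((hUm.comp (measurable_sh 0 _)).sub (hUm.comp (measurable_sh 0 _)))
  have hG4d : ∀ s, DependsOn (G4 s) {p : ℕ × Site d | 1 ≤ p.1} := by
    intro s η η' hη
    simp only [hG4]
    have h1 := hUd z0 hη
    have h2 := hUd (pos s m) hη
    simp only at h1 h2
    rw [h1, h2]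
  have hσ0 : 0 ≤ σ := by
    refine le_trans (integral_nonneg fun _ => abs_nonneg _)
      (hs 0 (zero_mem_boxF _) (by simp))
  have hG4v : ∀ s, ∫ η, G4 s η ∂(law d ρ) ≤ 2 * σ := by
    intro s
    have hpos : pos s m - z0 ∈ boxF d (2 * R) := by
      have h1 := pos_mem_box s m
      have h1' := hz0
      rw [mem_boxF] at h1 h1' ⊢
      intro i
      have h2 := h1 i
      have h3 := h1' i
      have h4 := abs_sub (pos s m i) (z0 i)
      have h5 : (m : ℤ) ≤ R := by exact_mod_cast hmR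
      rw [Pi.sub_apply]
      push_cast
      linarith
    have hev : Even (∑ j, (pos s m - z0) j) := by
      have h1 : ∑ j, (pos s m - z0) j = (∑ j, pos s m j - m) - (∑ j, z0 j - m) := by
        simp only [Pi.sub_apply, Finset.sum_sub_distrib]
        ring
      rw [h1]
      exact (IncS10.even_pos s).sub hz1
    have h2 := U_diff24 hd hρ β h n τ (pos s m) z0
    have h3 := (IncS10.int_D10 (ρ := ρ) hd hρ β h 0 (pos s m) z0 n).2
    have h4 := hs _ hpos hev
    have h6 : ∫ η, G4 s η ∂(law d ρ) =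
        ∫ η, |U24 ρ β h n τ (sh 0 (pos s m) η) - U24 ρ β h n τ (sh 0 z0 η)| ∂(law d ρ) := rfl
    rw [h6]
    linarith
  have ia4 := (avg24 (ρ := ρ) hd β h m G4 hG4m hG4i hG4d).1
  have va4 := avg_le24 (ρ := ρ) hd β h m G4 hG4m hG4i hG4d hG4v
  -- the pointwise inequality
  have hUins : ∀ η ξ : Env d, U (sh m z0 (insE τ m z0 η ξ)) = U η := by
    intro η ξ
    refine U_dep24 β h n τ fun p hp => ?_
    have hp' : ¬ p.1 ≤ τ := hp
    unfold sh insE
    simp only
    rw [if_neg (by omega), if_neg (by omega)]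
    congr 1
    refine Prod.ext ?_ ?_
    · change p.1 + m - m = p.1
      omega
    · change p.2 + z0 - z0 = p.2
      abel
  have hpt : ∀ w : Env d × Env d,
      |X β h (insE τ m z0 w.1 w.2) (n + m) - X β h w.1 n - A ρ β h m| ≤
        a1 (insE τ m z0 w.1 w.2) + a2 (insE τ m z0 w.1 w.2) + a3 (insE τ m z0 w.1 w.2) +
          a4 (insE τ m z0 w.1 w.2) + |X β h w.1 n - U w.1| := by
    intro w
    set η' := insE τ m z0 w.1 w.2 with hη'
    have e1 : X β h η' (n + m) - X β h w.1 n - A ρ β h m =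
        a1 η' + (X β h η' m - A ρ β h m) +
        (∑ s : Fin m → Step d, FreeU_p β h m s η' *
          (X β h (sh m (pos s m) η') n - U (sh m (pos s m) η'))) +
        (∑ s : Fin m → Step d, FreeU_p β h m s η' *
          (U (sh m (pos s m) η') - U (sh m z0 η'))) + (U w.1 - X β h w.1 n) := by
      have e2 := FreeU_sum hd β h m η'
      have e3 : ∑ s : Fin m → Step d, FreeU_p β h m s η' *
          (U (sh m (pos s m) η') - U (sh m z0 η')) =
          ∑ s : Fin m → Step d, FreeU_p β h m s η' * U (sh m (pos s m) η') - U w.1 := by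
        simp only [mul_sub]
        rw [Finset.sum_sub_distrib, ← Finset.sum_mul, e2, one_mul, hUins]
      have e4 : ∑ s : Fin m → Step d, FreeU_p β h m s η' *
          (X β h (sh m (pos s m) η') n - U (sh m (pos s m) η')) =
          ∑ s : Fin m → Step d, FreeU_p β h m s η' * X β h (sh m (pos s m) η') n -
          ∑ s : Fin m → Step d, FreeU_p β h m s η' * U (sh m (pos s m) η') := by
        simp only [mul_sub]
        rw [Finset.sum_sub_distrib]
      rw [e3, e4, add_comm n m]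
      simp only [ha1]
      ring
    rw [e1]
    have b1 : |a1 η'| = a1 η' := abs_of_nonneg (a1nn η')
    have b3 : |∑ s : Fin m → Step d, FreeU_p β h m s η' *
          (X β h (sh m (pos s m) η') n - U (sh m (pos s m) η'))| ≤ a3 η' := by
      refine (Finset.abs_sum_le_sum_abs _ _).trans (le_of_eq ?_)
      refine Finset.sum_congr rfl fun s _ => ?_
      rw [abs_mul, abs_of_nonneg (FreeU_nonneg hd β h m s η')]
      simp only [hG3, esh]
    have b4 : |∑ s : Fin m → Step d, FreeU_p β h m s η' *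
          (U (sh m (pos s m) η') - U (sh m z0 η'))| ≤ a4 η' := by
      refine (Finset.abs_sum_le_sum_abs _ _).trans (le_of_eq ?_)
      refine Finset.sum_congr rfl fun s _ => ?_
      rw [abs_mul, abs_of_nonneg (FreeU_nonneg hd β h m s η')]
      simp only [hG4, esh]
    have b5 : |U w.1 - X β h w.1 n| = |X β h w.1 n - U w.1| := abs_sub_comm _ _
    refine (abs_add_le _ _).trans ?_
    rw [b5]
    refine add_le_add ?_ le_rfl
    refine (abs_add_le _ _).trans (add_le_add ?_ b4)
    refine (abs_add_le _ _).trans (add_le_add ?_ b3)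
    refine (abs_add_le _ _).trans (add_le_add b1.le le_rfl)
  -- integrate
  have j1 : Integrable (fun w : Env d × Env d => a1 (insE τ m z0 w.1 w.2)) μ2 :=
    hmp.integrable_comp_of_integrable ia1
  have j2 : Integrable (fun w : Env d × Env d => a2 (insE τ m z0 w.1 w.2)) μ2 :=
    hmp.integrable_comp_of_integrable ia2
  have j3 : Integrable (fun w : Env d × Env d => a3 (insE τ m z0 w.1 w.2)) μ2 :=
    hmp.integrable_comp_of_integrable ia3
  have j4 : Integrable (fun w : Env d × Env d => a4 (insE τ m z0 w.1 w.2)) μ2 :=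
    hmp.integrable_comp_of_integrable ia4
  have i5 : Integrable (fun η : Env d => |X β h η n - U η|) (law d ρ) := ((hX n).sub hUi).abs
  have j5 : Integrable (fun w : Env d × Env d => |X β h w.1 n - U w.1|) μ2 :=
    i5.comp_fst (law d ρ)
  have v1 : ∫ w : Env d × Env d, a1 (insE τ m z0 w.1 w.2) ∂μ2 = ∫ η, a1 η ∂(law d ρ) :=
    LawU_integral hmp (F := a1) ia1.aestronglyMeasurable
  have v2 : ∫ w : Env d × Env d, a2 (insE τ m z0 w.1 w.2) ∂μ2 = ∫ η, a2 η ∂(law d ρ) :=
    LawU_integral hmp (F := a2) ia2.aestronglyMeasurable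
  have v3 : ∫ w : Env d × Env d, a3 (insE τ m z0 w.1 w.2) ∂μ2 = ∫ η, a3 η ∂(law d ρ) :=
    LawU_integral hmp (F := a3) ia3.aestronglyMeasurable
  have v4 : ∫ w : Env d × Env d, a4 (insE τ m z0 w.1 w.2) ∂μ2 = ∫ η, a4 η ∂(law d ρ) :=
    LawU_integral hmp (F := a4) ia4.aestronglyMeasurable
  have v5 : ∫ w : Env d × Env d, |X β h w.1 n - U w.1| ∂μ2 =
      ∫ η, |X β h η n - U η| ∂(law d ρ) :=
    LawU_integral (measurePreserving_fst (μ := law d ρ) (ν := law d ρ))
      (F := fun η => |X β h η n - U η|) i5.aestronglyMeasurable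
  have j12 : Integrable (fun w : Env d × Env d => a1 (insE τ m z0 w.1 w.2) +
      a2 (insE τ m z0 w.1 w.2)) μ2 := j1.add j2
  have j123 : Integrable (fun w : Env d × Env d => a1 (insE τ m z0 w.1 w.2) +
      a2 (insE τ m z0 w.1 w.2) + a3 (insE τ m z0 w.1 w.2)) μ2 := j12.add j3
  have j1234 : Integrable (fun w : Env d × Env d => a1 (insE τ m z0 w.1 w.2) +
      a2 (insE τ m z0 w.1 w.2) + a3 (insE τ m z0 w.1 w.2) + a4 (insE τ m z0 w.1 w.2)) μ2 :=
    j123.add j4
  have h7 := integral_mono_of_nonneg (μ := μ2) (Eventually.of_forall fun w => abs_nonneg _)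
    (j1234.add j5) (Eventually.of_forall hpt)
  refine h7.trans ?_
  have h8 : ∫ w : Env d × Env d, (a1 (insE τ m z0 w.1 w.2) +
      a2 (insE τ m z0 w.1 w.2) + a3 (insE τ m z0 w.1 w.2) + a4 (insE τ m z0 w.1 w.2) +
      |X β h w.1 n - U w.1|) ∂μ2 = ∫ η, a1 η ∂(law d ρ) + ∫ η, a2 η ∂(law d ρ) +
        ∫ η, a3 η ∂(law d ρ) + ∫ η, a4 η ∂(law d ρ) + ∫ η, |X β h η n - U η| ∂(law d ρ) := by
    rw [integral_add j1234 j5, integral_add j123 j4, integral_add j12 j3, integral_add j1 j2,
      v1, v2, v3, v4, v5]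
  have h9 : ∫ η, a3 η ∂(law d ρ) ≤ r := va3
  have h10 : ∫ η, a4 η ∂(law d ρ) ≤ 2 * σ := va4
  have h11 : ∫ η, a2 η ∂(law d ρ) = ∫ η, |X β h η m - A ρ β h m| ∂(law d ρ) := rfl
  simp only [Pi.add_apply]
  rw [h8, va1]
  linarith

end Pool.Agent.W_7d29a1_NV10
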