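import Pool.Agent.W_7d29a1_NV24.HR24
import Pool.Agent.W_7d29a1_NV.IncS10

/-!
Spatial roughness on the even sublattice: a resampling of the first rows moves the free energy as
little as an even spatial shift (the proof is that of `W_7d29a1_NV24/HR24.lean`).
-/

set_option autoImplicit false

namespace Pool.Agent.W_7d29a1_NV10

open MeasureTheory ProbabilityTheory Filter Topology Pool.Agent.W_MP_7d29a1_pr
  Pool.Agent.W_7d29a1_h46 Pool.Agent.W_7d29a1_h46u Pool.Agent.W_7d29a1_D2.B35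
  Pool.Agent.W_7d29a1_Q29 Pool.Agent.W_7d29a1_NV Pool.Agent.W_7d29a1_NV24

variable {d : ℕ} {ρ : Measure ℝ} [IsProbabilityMeasure ρ]

/-- The column `j` of the comparison, of even parity. -/
def yy10 (hd : 0 < d) (k j : ℕ) : Site d :=
  Pi.single ⟨0, hd⟩ (((j : ℤ) + 1) * (2 * (2 * k + 1)))

lemma even_yy10 (hd : 0 < d) (k j : ℕ) : Even (∑ i, yy10 hd k j i) := by
  unfold yy10
  rw [Finset.sum_pi_single']
  simp only [Finset.mem_univ, if_true]
  exact ⟨((j : ℤ) + 1) * (2 * k + 1), by ring⟩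

section Rs

variable {Ω : Type} [MeasurableSpace Ω] {P : Measure Ω} [IsProbabilityMeasure P]
  {Θ : Env d → Ω → Env d} {k : ℕ}

lemma yy_far10 (hd : 0 < d) (k : ℕ) {i j : ℕ} (hij : i ≠ j) :
    ∃ c, (2 * k : ℤ) < |yy10 hd k j c - yy10 hd k i c| := by
  refine ⟨⟨0, hd⟩, ?_⟩
  unfold yy10
  rw [Pi.single_eq_same, Pi.single_eq_same]
  have h1 : ((j : ℤ) + 1) * (2 * (2 * k + 1)) - ((i : ℤ) + 1) * (2 * (2 * k + 1)) =
      ((j : ℤ) - i) * (2 * (2 * k + 1)) := by ring
  have h2 : (1 : ℤ) ≤ |(j : ℤ) - i| := by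
    refine Int.one_le_abs ?_
    intro h3
    exact hij (by omega)
  rw [h1, abs_mul, abs_of_nonneg (by positivity : (0 : ℤ) ≤ 2 * (2 * k + 1))]
  nlinarith

/-- The mean of the differences over `M` far columns. -/
lemma avg_Df10 (hd : 0 < d) (hρ : EM ρ) (H : Rs24 ρ k P Θ) (β : ℝ) (h : Vec d) (n : ℕ) {M : ℕ}
    (hM : 0 < M) :
    ∫ w, |(∑ j ∈ Finset.range M, Df24 β h n Θ (yy10 hd k j) w) / M|
      ∂((law d ρ).prod (P.prod P)) ≤ Real.sqrt (Ck24 d ρ β k / M) := by
  set μW := (law d ρ).prod (P.prod P) with hμW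
  set F : ℕ → Env d × (Ω × Ω) → ℝ := fun j => Df24 β h n Θ (yy10 hd k j) with hF
  have hMr : (0 : ℝ) < M := by exact_mod_cast hM
  have hmem : ∀ j, MemLp (F j) 2 μW := fun j => memDf24 hd hρ H β h n _
  have hS : MemLp (fun w => ∑ j ∈ Finset.range M, F j w) 2 μW :=
    memLp_finsetSum _ fun j _ => hmem j
  have hSq : ∫ w, (∑ j ∈ Finset.range M, F j w) ^ 2 ∂μW ≤ M * Ck24 d ρ β k := by
    have e1 : ∀ w, (∑ j ∈ Finset.range M, F j w) ^ 2 =
        ∑ i ∈ Finset.range M, ∑ j ∈ Finset.range M, F i w * F j w := by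
      intro w
      rw [sq, Finset.sum_mul_sum]
    have hi : ∀ i j, Integrable (fun w => F i w * F j w) μW := fun i j =>
      (hmem i).integrable_mul (hmem j)
    simp only [e1]
    rw [integral_finsetSum _ fun i _ => integrable_finsetSum _ fun j _ => hi i j]
    have e2 : ∀ i ∈ Finset.range M, ∫ w, ∑ j ∈ Finset.range M, F i w * F j w ∂μW ≤
        Ck24 d ρ β k := by
      intro i hiM
      rw [integral_finsetSum _ fun j _ => hi i j]
      rw [Finset.sum_eq_single_of_mem i hiM fun j _ hji => Df_cross24 H β h n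
        (yy_far10 hd k hji.symm)]
      have := Df_sq24 hd hρ H β h n (yy10 hd k i)
      simpa only [sq] using this
    refine (Finset.sum_le_sum e2).trans ?_
    rw [Finset.sum_const, Finset.card_range, nsmul_eq_mul]
  have hi1 : Integrable (fun w => |(∑ j ∈ Finset.range M, F j w) / M|) μW :=
    ((hS.integrable one_le_two).div_const _).abs
  refine Real.le_sqrt_of_sq_le ?_
  have hSq2 : Integrable (fun w => |(∑ j ∈ Finset.range M, F j w) / M| ^ 2) μW := by
    have := hS.integrable_sq.div_const ((M : ℝ) ^ 2)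
    refine this.congr (Eventually.of_forall fun w => ?_)
    simp only [sq_abs]
    ring
  refine (M66.sq_int hi1 hSq2).trans ?_
  have e3 : ∀ w, |(∑ j ∈ Finset.range M, F j w) / M| ^ 2 =
      (∑ j ∈ Finset.range M, F j w) ^ 2 / (M : ℝ) ^ 2 := by
    intro w
    rw [sq_abs, div_pow]
  simp only [e3]
  rw [integral_div]
  rw [div_le_div_iff₀ (by positivity) hMr]
  calc (∫ w, (∑ j ∈ Finset.range M, F j w) ^ 2 ∂μW) * M ≤ (M * Ck24 d ρ β k) * M :=
        mul_le_mul_of_nonneg_right hSq hMr.le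
    _ = Ck24 d ρ β k * (M : ℝ) ^ 2 := by ring

/-- (HR) Two resamplings of the first rows: the free energies differ as little as those of far
columns. -/
theorem hr10 (hd : 0 < d) (hρ : EM ρ) (H : Rs24 ρ k P Θ) (β : ℝ) (h : Vec d) (n : ℕ) {M : ℕ}
    (hM : 0 < M) {s : ℝ}
    (hs : ∀ j < M, ∫ η, |X β h (sh 0 (yy10 hd k j) η) n - X β h η n| ∂(law d ρ) ≤ s) :
    ∫ w, |X β h (Θ w.1 w.2.1) n - X β h (Θ w.1 w.2.2) n| ∂((law d ρ).prod (P.prod P)) ≤
      2 * s + Real.sqrt (Ck24 d ρ β k / M) := by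
  set μW := (law d ρ).prod (P.prod P) with hμW
  have hMr : (0 : ℝ) < M := by exact_mod_cast hM
  set g : Env d → ℝ := fun η => (∑ j ∈ Finset.range M,
    (X β h η n - X β h (sh 0 (yy10 hd k j) η) n)) / M with hg
  have hgi' : ∀ j, Integrable (fun η : Env d => X β h η n - X β h (sh 0 (yy10 hd k j) η) n)
      (law d ρ) := fun j => (intX24 hd hρ β h n).sub
        ((memSh24 hd hρ β h n 0 _).integrable one_le_two)
  have hgi : Integrable g (law d ρ) :=
    (integrable_finsetSum _ fun j _ => hgi' j).div_const _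
  have hgs : ∫ η, |g η| ∂(law d ρ) ≤ s := by
    have h1 : ∀ η, |g η| ≤ (∑ j ∈ Finset.range M,
        |X β h (sh 0 (yy10 hd k j) η) n - X β h η n|) / M := by
      intro η
      rw [hg]
      simp only
      rw [abs_div, abs_of_pos hMr]
      refine div_le_div_of_nonneg_right ?_ hMr.le
      refine (Finset.abs_sum_le_sum_abs _ _).trans (le_of_eq ?_)
      exact Finset.sum_congr rfl fun j _ => abs_sub_comm _ _
    have hi : ∀ j, Integrable (fun η : Env d => |X β h (sh 0 (yy10 hd k j) η) n - X β h η n|)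
        (law d ρ) := fun j => ((hgi' j).abs.congr (Eventually.of_forall fun η => abs_sub_comm _ _))
    have h2 := integral_mono hgi.abs ((integrable_finsetSum (Finset.range M)
      fun j _ => hi j).div_const (M : ℝ)) h1
    refine h2.trans ?_
    rw [integral_div, integral_finsetSum _ fun j _ => hi j, div_le_iff₀ hMr]
    refine (Finset.sum_le_sum fun j hj => hs j (Finset.mem_range.1 hj)).trans ?_
    rw [Finset.sum_const, Finset.card_range, nsmul_eq_mul, mul_comm]
  have g1 : Integrable (fun w : Env d × (Ω × Ω) => |g (Θ w.1 w.2.1)|) μW :=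
    (mp1_24 H).integrable_comp_of_integrable hgi.abs
  have g2 : Integrable (fun w : Env d × (Ω × Ω) => |g (Θ w.1 w.2.2)|) μW :=
    (mp2_24 H).integrable_comp_of_integrable hgi.abs
  have e1 : ∫ w : Env d × (Ω × Ω), |g (Θ w.1 w.2.1)| ∂μW = ∫ η, |g η| ∂(law d ρ) :=
    LawU_integral (mp1_24 H) (F := fun η => |g η|) hgi.abs.aestronglyMeasurable
  have e2 : ∫ w : Env d × (Ω × Ω), |g (Θ w.1 w.2.2)| ∂μW = ∫ η, |g η| ∂(law d ρ) :=
    LawU_integral (mp2_24 H) (F := fun η => |g η|) hgi.abs.aestronglyMeasurable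
  have hav : Integrable (fun w : Env d × (Ω × Ω) =>
      |(∑ j ∈ Finset.range M, Df24 β h n Θ (yy10 hd k j) w) / M|) μW :=
    (((memLp_finsetSum (Finset.range M) fun j _ => memDf24 hd hρ H β h n
      (yy10 hd k j)).integrable one_le_two).div_const _).abs
  have hpt : ∀ w : Env d × (Ω × Ω), |X β h (Θ w.1 w.2.1) n - X β h (Θ w.1 w.2.2) n| ≤
      |g (Θ w.1 w.2.1)| + |g (Θ w.1 w.2.2)| +
        |(∑ j ∈ Finset.range M, Df24 β h n Θ (yy10 hd k j) w) / M| := by
    intro w
    have e3 : X β h (Θ w.1 w.2.1) n - X β h (Θ w.1 w.2.2) n =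
        g (Θ w.1 w.2.1) - g (Θ w.1 w.2.2) +
          (∑ j ∈ Finset.range M, Df24 β h n Θ (yy10 hd k j) w) / M := by
      simp only [hg, Df24, Finset.sum_sub_distrib, Finset.sum_const, Finset.card_range,
        nsmul_eq_mul]
      field_simp
      ring
    rw [e3]
    refine (abs_add_le _ _).trans (add_le_add (abs_sub _ _) le_rfl)
  have h3 := integral_mono_of_nonneg (μ := μW) (Eventually.of_forall fun w => abs_nonneg _)
    ((g1.add g2).add hav) (Eventually.of_forall hpt)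
  refine h3.trans ?_
  have e4 : ∫ w : Env d × (Ω × Ω), (|g (Θ w.1 w.2.1)| + |g (Θ w.1 w.2.2)| +
        |(∑ j ∈ Finset.range M, Df24 β h n Θ (yy10 hd k j) w) / M|) ∂μW =
      ∫ w : Env d × (Ω × Ω), |g (Θ w.1 w.2.1)| ∂μW + ∫ w : Env d × (Ω × Ω), |g (Θ w.1 w.2.2)| ∂μW +
      ∫ w, |(∑ j ∈ Finset.range M, Df24 β h n Θ (yy10 hd k j) w) / M| ∂μW := by
    have g12 : Integrable (fun w : Env d × (Ω × Ω) => |g (Θ w.1 w.2.1)| + |g (Θ w.1 w.2.2)|) μW :=
      g1.add g2
    rw [integral_add g12 hav, integral_add g1 g2]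
  have h5 := avg_Df10 hd hρ H β h n hM
  simp only [Pi.add_apply]
  rw [e4, e1, e2]
  linarith
end Rs

end Pool.Agent.W_7d29a1_NV10
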