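import Pool.Agent.W_7d29a1_NV24.Mul24
import Pool.Agent.W_7d29a1_NV.IncS10

/-!
Spatial roughness: the number of classes at one length, with the parity of the end point (the
proof is that of `W_7d29a1_NV24/Mul24.lean`).
-/

set_option autoImplicit false

namespace Pool.Agent.W_7d29a1_NV10

open MeasureTheory ProbabilityTheory Filter Topology Pool.Agent.W_MP_7d29a1_pr
  Pool.Agent.W_7d29a1_h46 Pool.Agent.W_7d29a1_h46u Pool.Agent.W_7d29a1_D2.B35
  Pool.Agent.W_7d29a1_Q29 Pool.Agent.W_7d29a1_P89 Pool.Agent.W_7d29a1_P78 Pool.Agent.W_7d29a1_NV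
  Pool.Agent.W_7d29a1_NV24

variable {d : ℕ} {ρ : Measure ℝ}

/-- The number of classes at one length, before any fluctuation bound; the displacement has the
parity of the number of the inserted rows. -/
def Mul10 (d : ℕ) (ρ : Measure ℝ) (β : ℝ) : Prop := ∀ h : Vec d, VSD ρ β h → ∀ ε : ℝ, 0 < ε →
  ∃ (k₁ : ℕ) (u b₁ : ℝ), 1 ≤ k₁ ∧ 0 < u ∧ ∀ b₀ : ℝ, b₁ ≤ b₀ → ∃ z0 : Site d,
    Even ((∑ j, z0 j) - (k₁ * ⌈b₀ / u⌉₊ : ℕ)) ∧ ∀ n τ : ℕ, τ ≤ n →
    b₀ * (law d ρ).real {η | ¬ GoodN β h n τ b₀ ε η} ≤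
      2 * ∫ w, |X β h (insE τ (k₁ * ⌈b₀ / u⌉₊) z0 w.1 w.2) (n + k₁ * ⌈b₀ / u⌉₊) - X β h w.1 n -
        A ρ β h (k₁ * ⌈b₀ / u⌉₊)| ∂((law d ρ).prod (law d ρ))

/-- A lucky pair has a positive point to point weight, hence the right parity. -/
lemma par_lk10 [IsProbabilityMeasure ρ] {P : Prm d} {k : ℕ} {y : Site d} {u : ℝ}
    (h : 0 < (law d ρ).real {ξ : Env d | Lk P k y u ξ}) : Even ((∑ j, y j) - k) := by
  obtain ⟨ξ, hξ⟩ : ∃ ξ : Env d, Lk P k y u ξ := by
    by_contra hcon
    push Not at hcon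
    have h1 : {ξ : Env d | Lk P k y u ξ} = ∅ := by
      ext ξ
      simp only [Set.mem_ofPred_eq, Set.mem_empty_iff_false, iff_false]
      exact hcon ξ
    rw [h1] at h
    simp at h
  have h2 : 0 < PP P.be P.h ξ k y := by
    have h3 : Real.exp u ≤ Real.exp (-((k : ℝ) * P.Lam)) * PP P.be P.h ξ k y := hξ
    have h4 := (Real.exp_pos u).trans_le h3
    exact (mul_pos_iff_of_pos_left (Real.exp_pos _)).1 h4
  obtain ⟨s, hs⟩ : ∃ s : Fin k → Step d, pos s k = y := by
    by_contra hcon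
    push Not at hcon
    have h3 : PP P.be P.h ξ k y = 0 := by
      unfold PP ZT
      refine Finset.sum_eq_zero fun s _ => if_neg ?_
      simp only [Set.mem_ofPred_eq]
      exact hcon s
    linarith
  rw [← hs]
  exact IncS10.even_pos s

/-- The number of classes at one length, before any fluctuation bound. -/
theorem mul10 [IsProbabilityMeasure ρ] (hd : 0 < d) (hρ : EM ρ) (β : ℝ) : Mul10 d ρ β := by
  classical
  intro h hV ε hε
  have hLM : LMassP d ρ := lMassP79
  set P : Prm d := ⟨lam ρ β h, β, h, 1⟩ with hP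
  have hPP := Pool.Agent.W_7d29a1_P79.hP79 hd hρ hV
  set θ : ℝ := min (min (ε / 8) (1 / 32)) 1 with hθ
  have hθ0 : 0 < θ := lt_min (lt_min (by positivity) (by norm_num)) one_pos
  have hθ1 : θ ≤ ε / 8 := (min_le_left _ _).trans (min_le_left _ _)
  have hθ2 : θ ≤ 1 / 32 := (min_le_left _ _).trans (min_le_right _ _)
  have hθ3 : θ ≤ 1 := min_le_right _ _
  obtain ⟨k, y, u, hk1, hu1, hp⟩ := Pool.Agent.W_7d29a1_P79.pair79 hd hρ P hPP hθ0 hθ3
  have hu0 : 0 < u := lt_of_lt_of_le one_pos hu1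
  have hk0 : (1 : ℝ) ≤ k := by exact_mod_cast hk1
  set C' : ℝ := k * (2 / u + 1) with hC'
  have hC0 : 0 < C' := by positivity
  set c : ℝ := min (ε / 2) (1 / 4) with hc
  have hc0 : 0 < c := lt_min (by positivity) (by norm_num)
  have hc1 : c ≤ ε / 2 := min_le_left _ _
  have hc2 : c ≤ 1 / 4 := min_le_right _ _
  obtain ⟨b₁, hb11, hb₁⟩ := num79 hc0 d (B := θ * u) (by positivity) C' hC0.le
  have hpar : Even ((∑ j, y j) - k) := par_lk10 ((Real.exp_pos _).trans_le hp)
  refine ⟨k, u / 2, b₁, hk1, by positivity, fun b hb => ⟨⌈b / (u / 2)⌉₊ • y, ?_,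
    fun n τ hτn => ?_⟩⟩
  · have h1 : ∑ j, (⌈b / (u / 2)⌉₊ • y) j - (k * ⌈b / (u / 2)⌉₊ : ℕ) =
        (⌈b / (u / 2)⌉₊ : ℤ) * (∑ j, y j - k) := by
      simp only [Pi.smul_apply, nsmul_eq_mul]
      rw [← Finset.mul_sum]
      push_cast
      ring
    rw [h1]
    exact hpar.mul_left _
  have hbb1 : b₁ ≤ b := hb
  have hb1 : 1 ≤ b := hb11.trans hbb1
  have hb0 : 0 < b := by linarith
  -- the segments
  have hbu : b / (u / 2) = 2 * b / u := by
    field_simp
  rw [hbu]
  set r : ℕ := ⌈2 * b / u⌉₊ with hr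
  have hr1 : 2 * b / u ≤ r := Nat.le_ceil _
  have hr2 : (r : ℝ) < 2 * b / u + 1 := Nat.ceil_lt_add_one (by positivity)
  have hU1 : 2 * b ≤ r * u := by
    rw [div_le_iff₀ hu0] at hr1
    exact hr1
  have hU2 : (r : ℝ) * u ≤ 2 * b + u := by
    have := mul_le_mul_of_nonneg_right hr2.le hu0.le
    rw [add_mul, div_mul_cancel₀ _ hu0.ne', one_mul] at this
    exact this
  rw [Nat.mul_comm k r]
  set m : ℕ := r * k with hm
  have hmC : (m : ℝ) ≤ C' * b := by
    rw [hm, hC']
    push_cast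
    have h1 : (r : ℝ) ≤ (2 / u + 1) * b := by
      have h2 : 2 * b / u + 1 ≤ (2 / u + 1) * b := by
        have : 2 * b / u = 2 / u * b := by ring
        rw [this]
        nlinarith
      linarith
    nlinarith
  -- the probability of luck
  set z0 : Site d := r • y with hz0
  set U : ℝ := r * u with hU
  set p : ℝ := (law d ρ).real {ξ : Env d | Lk P m z0 U ξ} with hpd
  have hplow : Real.exp (-(θ * (2 * b + u))) ≤ p := by
    refine le_trans ?_ (concat78 P k y u r)
    refine le_trans ?_ (pow_le_pow_left₀ (Real.exp_pos _).le hp r)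
    rw [← Real.exp_nat_mul, Real.exp_le_exp]
    have : θ * (r * u) ≤ θ * (2 * b + u) := mul_le_mul_of_nonneg_left hU2 hθ0.le
    linarith
  have hp0 : 0 < p := (Real.exp_pos _).trans_le hplow
  have hnum := hb₁ b hbb1 m hmC
  have hpow1 : (1 : ℝ) ≤ (4 * (m : ℝ) + 1) ^ d := one_le_pow₀ (by
    have : (0 : ℝ) ≤ m := Nat.cast_nonneg m
    linarith)
  refine ins24 hd hρ β h hb0 hτn z0 (U := U) _ ?_
  intro η hη
  have hQ0 : ∀ x, 0 ≤ Qt β h n τ x η := fun x => S98.Qt_nonneg hd β h n τ x η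
  -- the conclusion from the lucky mass lemma
  have key : ∀ (A : Finset (Site d)) (q : Site d → ℝ) (M : ℝ), A ⊆ boxF d n →
      (∀ x ∈ A, 0 ≤ q x) → (∀ x ∈ A, q x ≤ M) → 0 < ∑ x ∈ A, q x →
      8 * M * (4 * (m : ℝ) + 1) ^ d ≤ p * ∑ x ∈ A, q x →
      (∀ ξ : Env d, p * (∑ x ∈ A, q x) / 2 <
        (∑ x ∈ A, if Lk P m z0 U (sh τ x ξ) then q x else 0) →
        Real.exp (b - U) ≤ ∑ x ∈ A, if Lk P m z0 U (sh τ x ξ) then Qt β h n τ x η else 0) →
      1 / 2 ≤ (law d ρ).real {ξ | Real.exp (b - U) ≤ ∑ x ∈ boxF d n,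
        if Lk P m z0 U (sh τ x ξ) then Qt β h n τ x η else 0} := by
    intro A q M hAs hq0 hqM hT hnum' hgain
    have h1 := hLM P τ m z0 U A q M hq0 hqM hT hp0
    have hpT : 0 < p * ∑ x ∈ A, q x := mul_pos hp0 hT
    have h2 : 4 * M * (4 * (m : ℝ) + 1) ^ d / (p * ∑ x ∈ A, q x) ≤ 1 / 2 := by
      rw [div_le_iff₀ hpT]
      linarith
    have hmeas : MeasurableSet {ξ : Env d | (∑ x ∈ A,
        if Lk P m z0 U (sh τ x ξ) then q x else 0) ≤ p * (∑ x ∈ A, q x) / 2} := by
      refine measurableSet_le (Finset.measurable_fun_sum _ fun x _ => ?_) measurable_const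
      exact Measurable.ite ((measurable_sh τ x) (measurableSet_Lk78 P m z0 U))
        measurable_const measurable_const
    have h3 := probReal_compl_eq_one_sub (μ := law d ρ) hmeas
    have h4 : {ξ : Env d | (∑ x ∈ A, if Lk P m z0 U (sh τ x ξ) then q x else 0) ≤
        p * (∑ x ∈ A, q x) / 2}ᶜ ⊆ {ξ | Real.exp (b - U) ≤ ∑ x ∈ boxF d n,
        if Lk P m z0 U (sh τ x ξ) then Qt β h n τ x η else 0} := by
      intro ξ hξ
      have h5 : p * (∑ x ∈ A, q x) / 2 <
        (∑ x ∈ A, if Lk P m z0 U (sh τ x ξ) then q x else 0) := not_le.1 hξ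
      refine (hgain ξ h5).trans ?_
      refine Finset.sum_le_sum_of_subset_of_nonneg hAs fun x _ _ => ?_
      split_ifs
      · exact hQ0 x
      · exact le_rfl
    have h5 := measureReal_mono (μ := law d ρ) h4
    rw [h3] at h5
    linarith
  by_cases hi : (((boxF d n).filter fun x => Real.exp (-b) ≤ Qt β h n τ x η).card : ℝ) ≤
      Real.exp (ε * b)
  · -- the mass of the small atoms is large
    have hii : Real.exp (-(b / 4)) <
        ∑ x ∈ (boxF d n).filter fun x => Qt β h n τ x η < Real.exp (-b), Qt β h n τ x η := by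
      by_contra hcon
      exact hη ⟨hi, not_lt.1 hcon⟩
    set A : Finset (Site d) := (boxF d n).filter fun x => Qt β h n τ x η < Real.exp (-b) with hAd
    have hT : 0 < ∑ x ∈ A, Qt β h n τ x η := (Real.exp_pos _).trans hii
    have hpT : Real.exp (-(θ * (2 * b + u))) * Real.exp (-(b / 4)) ≤
        p * ∑ x ∈ A, Qt β h n τ x η :=
      mul_le_mul hplow hii.le (Real.exp_pos _).le hp0.le
    rw [← Real.exp_add] at hpT
    refine key A (fun x => Qt β h n τ x η) (Real.exp (-b)) (Finset.filter_subset _ _)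
      (fun x _ => hQ0 x) (fun x hx => (Finset.mem_filter.1 hx).2.le) hT ?_ ?_
    · refine le_trans ?_ hpT
      have h6 : 8 * (4 * (m : ℝ) + 1) ^ d ≤ Real.exp (c * b - θ * u) := by
        rw [Real.exp_sub, le_div_iff₀ (Real.exp_pos _)]
        exact hnum
      have h7 : 8 * Real.exp (-b) * (4 * (m : ℝ) + 1) ^ d ≤
          Real.exp (c * b - θ * u) * Real.exp (-b) := by
        have := mul_le_mul_of_nonneg_right h6 (Real.exp_pos (-b)).le
        linarith
      refine h7.trans ?_
      rw [← Real.exp_add, Real.exp_le_exp]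
      nlinarith
    · intro ξ hξ
      refine le_trans ?_ hξ.le
      refine le_trans ?_ (div_le_div_of_nonneg_right hpT two_pos.le)
      rw [le_div_iff₀ two_pos]
      have h6 : 8 * Real.exp (θ * u) ≤ Real.exp (c * b) := by
        refine le_trans ?_ hnum
        have := mul_le_mul_of_nonneg_right hpow1 (Real.exp_pos (θ * u)).le
        linarith
      have h7 : (2 : ℝ) ≤ Real.exp (c * b - θ * u) := by
        rw [Real.exp_sub, le_div_iff₀ (Real.exp_pos _)]
        have := Real.exp_pos (θ * u)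
        linarith
      calc Real.exp (b - U) * 2 ≤ Real.exp (b - U) * Real.exp (c * b - θ * u) :=
            mul_le_mul_of_nonneg_left h7 (Real.exp_pos _).le
        _ = Real.exp (b - U + (c * b - θ * u)) := (Real.exp_add _ _).symm
        _ ≤ _ := by
          rw [Real.exp_le_exp]
          nlinarith
  · -- there are many atoms
    rw [not_le] at hi
    set A : Finset (Site d) := (boxF d n).filter fun x => Real.exp (-b) ≤ Qt β h n τ x η with hAd
    have hsum : ∑ _x ∈ A, (1 : ℝ) = A.card := by simp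
    have hcard : 0 < (A.card : ℝ) := (Real.exp_pos _).trans hi
    refine key A (fun _ => 1) 1 (Finset.filter_subset _ _) (fun _ _ => zero_le_one)
      (fun _ _ => le_rfl) (by rw [hsum]; exact hcard) ?_ ?_
    · rw [hsum]
      have hpT : Real.exp (-(θ * (2 * b + u))) * Real.exp (ε * b) ≤ p * A.card :=
        mul_le_mul hplow hi.le (Real.exp_pos _).le hp0.le
      rw [← Real.exp_add] at hpT
      refine le_trans ?_ hpT
      have h6 : 8 * (4 * (m : ℝ) + 1) ^ d ≤ Real.exp (c * b - θ * u) := by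
        rw [Real.exp_sub, le_div_iff₀ (Real.exp_pos _)]
        exact hnum
      rw [mul_one]
      refine h6.trans ?_
      rw [Real.exp_le_exp]
      nlinarith
    · intro ξ hξ
      have h6 : 0 < ∑ x ∈ A, (if Lk P m z0 U (sh τ x ξ) then (1 : ℝ) else 0) := by
        refine lt_of_le_of_lt ?_ hξ
        rw [hsum]
        positivity
      obtain ⟨x, hxA, hx⟩ := Finset.exists_ne_zero_of_sum_ne_zero h6.ne'
      have hl : Lk P m z0 U (sh τ x ξ) := by
        by_contra hcon
        exact hx (if_neg hcon)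
      have h7 : Real.exp (b - U) ≤ Qt β h n τ x η := by
        refine le_trans ?_ (Finset.mem_filter.1 hxA).2
        rw [Real.exp_le_exp]
        linarith
      refine h7.trans ?_
      have h8 := Finset.single_le_sum (s := A) (a := x)
        (f := fun x => if Lk P m z0 U (sh τ x ξ) then Qt β h n τ x η else 0)
        (fun x _ => by
          beta_reduce
          split_ifs
          · exact hQ0 x
          · exact le_rfl) hxA
      beta_reduce at h8
      rw [if_pos hl] at h8
      exact h8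

end Pool.Agent.W_7d29a1_NV10
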