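import Pool.Agent.W_7d29a1_NV24.SR24
import Pool.Agent.W_7d29a1_NV10.HR10
import Pool.Agent.W_7d29a1_NV10.HI10
import Pool.Agent.W_7d29a1_NV10.Mul10

/-!
Spatial roughness on the even sublattice: in very strong disorder the spatial increments of the
free energy between sites of the same parity are unbounded, uniformly in all large lengths (the
proof is that of `W_7d29a1_NV24/SR24.lean`).
-/

set_option autoImplicit false

namespace Pool.Agent.W_7d29a1_NV10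

open MeasureTheory ProbabilityTheory Filter Topology Pool.Agent.W_MP_7d29a1_pr
  Pool.Agent.W_7d29a1_h46 Pool.Agent.W_7d29a1_h46u Pool.Agent.W_7d29a1_D2.B35
  Pool.Agent.W_7d29a1_Q29 Pool.Agent.W_7d29a1_NV Pool.Agent.W_7d29a1_NV24

variable {d : ℕ} {ρ : Measure ℝ} [IsProbabilityMeasure ρ]

lemma yy_mem10 (hd : 0 < d) (k : ℕ) {j M : ℕ} (hj : j < M) :
    yy10 hd k j ∈ boxF d (M * (2 * (2 * k + 1))) := by
  rw [mem_boxF]
  intro i
  unfold yy10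
  rw [Pi.single_apply]
  split_ifs
  · rw [abs_of_nonneg (by positivity)]
    push_cast
    have h1 : (j : ℤ) + 1 ≤ M := by exact_mod_cast hj
    exact mul_le_mul_of_nonneg_right h1 (by positivity)
  · rw [abs_zero]
    positivity

/-- **Theorem SR (spatial roughness)**, on the sites of even parity. -/
theorem sr10 (hd : 0 < d) (hρ : EM ρ) {β b : ℝ} (hb : HB ρ b) (hW : MixT d ρ b)
    (hC : CoreT24 d ρ β b) (hM : Mul10 d ρ β) (h : Vec d) (hV : VSD ρ β h) (K : ℝ) :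
    ∃ R n₀ : ℕ, ∀ n : ℕ, n₀ ≤ n → ∃ y ∈ boxF d R, Even (∑ j, y j) ∧ K < sp24 ρ β h n y := by
  by_contra hcon
  have hfr : ∀ R n₀ : ℕ, ∃ n : ℕ, n₀ ≤ n ∧ ∀ y ∈ boxF d R, Even (∑ j, y j) →
      sp24 ρ β h n y ≤ K := by
    intro R n₀
    by_contra hc
    refine hcon ⟨R, n₀, fun n hn => ?_⟩
    by_contra hc2
    refine hc ⟨n, hn, fun y hy hev => ?_⟩
    by_contra hc3
    exact hc2 ⟨y, hy, hev, not_le.1 hc3⟩
  have hK0 : 0 ≤ K := by
    obtain ⟨n, _, hn⟩ := hfr 0 0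
    exact (integral_nonneg fun _ => abs_nonneg _).trans (hn 0 (zero_mem_boxF 0) (by simp))
  -- the gap
  obtain ⟨g, hg⟩ : ∃ g : ℝ, g = Real.log (Phi h) + Real.log (∫ t, Real.exp (β * t) ∂ρ) -
    lam ρ β h := ⟨_, rfl⟩
  have hg0 : 0 < g := by
    have h1 : lam ρ β h < Real.log (Phi h) + Real.log (∫ t, Real.exp (β * t) ∂ρ) := hV
    rw [hg]
    linarith
  -- a nearby length with a small increment
  obtain ⟨J₁, hJ₁⟩ := IncS10.incS10 (ρ := ρ) hd hρ β h (ε := g / 4) (by linarith) K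
  obtain ⟨J, hJ⟩ : ∃ J, J = max J₁ 1 := ⟨_, rfl⟩
  have hJ1 : 1 ≤ J := by
    rw [hJ]
    exact le_max_right _ _
  obtain ⟨C2, hC2⟩ : ∃ C2 : ℝ, C2 = 2 * Real.log (Phi h) ^ 2 +
        2 * ((∫ r, Real.exp (β * r) ∂ρ) + ∫ r, Real.exp (-β * r) ∂ρ) := ⟨_, rfl⟩
  have hC20 : 0 ≤ C2 := by
    rw [hC2]
    have h1 : 0 ≤ ∫ r, Real.exp (β * r) ∂ρ := integral_nonneg fun r => (Real.exp_pos _).le
    have h2 : 0 ≤ ∫ r, Real.exp (-β * r) ∂ρ := integral_nonneg fun r => (Real.exp_pos _).le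
    positivity
  obtain ⟨K', hK'⟩ : ∃ K' : ℝ, K' = K + 2 * Real.sqrt (C2 * (J : ℝ) ^ 2) := ⟨_, rfl⟩
  have hKK' : K ≤ K' := by
    rw [hK']
    have := Real.sqrt_nonneg (C2 * (J : ℝ) ^ 2)
    linarith
  have hK'0 : 0 ≤ K' := hK0.trans hKK'
  have hnear : ∀ R n : ℕ, 3 * J ≤ R → J ≤ n →
      (∀ y ∈ boxF d R, Even (∑ j, y j) → sp24 ρ β h n y ≤ K) →
      ∃ n' : ℕ, n ≤ n' ∧ 1 ≤ n' ∧ A ρ β h n' - A ρ β h (n' - 1) ≤ lam ρ β h + g / 2 ∧
        ∀ y ∈ boxF d R, Even (∑ j, y j) → sp24 ρ β h n' y ≤ K' := by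
    intro R n hR hn hVn
    have h1 := hJ₁ J (by rw [hJ]; exact le_max_left _ _) n hn
      (fun x hx hev => hVn x (box_mono24 hR hx) hev)
    obtain ⟨j, hj1, hjJ, hj⟩ := I34.exists_inc (fun n => A ρ β h n) n hJ1 h1
    refine ⟨n + j, by omega, by omega, ?_, fun y hy hev => ?_⟩
    · linarith
    · have h2 := Inc27.steps27 (ρ := ρ) hd hρ β h n j
      rw [← hC2] at h2
      have h3 : (j : ℝ) ^ 2 ≤ (J : ℝ) ^ 2 :=
        pow_le_pow_left₀ (Nat.cast_nonneg j) (by exact_mod_cast hjJ) 2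
      have h4 := mul_le_mul_of_nonneg_left h3 hC20
      have h5 := sp_step24 hd hρ β h n j y (h2.trans h4)
      have h6 := hVn y hy hev
      rw [hK']
      linarith
  -- the core and the multiplicity
  obtain ⟨ε, δ, b₂, hε, hδ, hcor⟩ := hC h g (2 * K' + 1) hg0 (by rw [hg]; linarith)
  obtain ⟨k₁, u, b₁, hk₁, hu, hmul⟩ := hM h hV ε hε
  have hk0 : (0 : ℝ) < k₁ := by exact_mod_cast hk₁
  obtain ⟨ε₂, hε₂⟩ : ∃ ε₂ : ℝ, ε₂ = δ * u / (16 * k₁) := ⟨_, rfl⟩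
  have hε₂0 : 0 < ε₂ := by
    rw [hε₂]
    positivity
  obtain ⟨m₁, hm₁⟩ := IncS10.incS10 (ρ := ρ) hd hρ β h hε₂0 K'
  obtain ⟨m₂, hm₂⟩ := I34.small_m (ρ := ρ) hd hρ β h ((6 * K' + 2) ^ 2) hε₂0
  obtain ⟨b₀, hb₀⟩ : ∃ b₀ : ℝ, b₀ = max (max b₂ b₁) (max u (u * (max m₁ m₂ : ℕ))) := ⟨_, rfl⟩
  have hb2 : b₂ ≤ b₀ := by
    rw [hb₀]
    exact (le_max_left _ _).trans (le_max_left _ _)
  have hb1 : b₁ ≤ b₀ := by
    rw [hb₀]
    exact (le_max_right _ _).trans (le_max_left _ _)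
  have hbu : u ≤ b₀ := by
    rw [hb₀]
    exact (le_max_left _ _).trans (le_max_right _ _)
  have hbm : u * (max m₁ m₂ : ℕ) ≤ b₀ := by
    rw [hb₀]
    exact (le_max_right _ _).trans (le_max_right _ _)
  have hb0 : 0 < b₀ := hu.trans_le hbu
  obtain ⟨T₀, n₀, hn₀⟩ := hcor b₀ hb2
  obtain ⟨z0, hzp, hz0⟩ := hmul b₀ hb1
  obtain ⟨m, hm⟩ : ∃ m, m = k₁ * ⌈b₀ / u⌉₊ := ⟨_, rfl⟩
  rw [← hm] at hz0 hzp
  have hmm : max m₁ m₂ ≤ m := by
    have h1 : ((max m₁ m₂ : ℕ) : ℝ) ≤ b₀ / u := by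
      rw [le_div_iff₀ hu]
      linarith
    have h2 : max m₁ m₂ ≤ ⌈b₀ / u⌉₊ := by exact_mod_cast h1.trans (Nat.le_ceil _)
    rw [hm]
    exact h2.trans (Nat.le_mul_of_pos_left _ hk₁)
  have hmu : (m : ℝ) ≤ 2 * k₁ * b₀ / u := by
    have h1 : (⌈b₀ / u⌉₊ : ℝ) ≤ b₀ / u + 1 := (Nat.ceil_lt_add_one (by positivity)).le
    have h2 : 1 ≤ b₀ / u := by
      rw [le_div_iff₀ hu]
      linarith
    rw [hm]
    push_cast
    calc (k₁ : ℝ) * ⌈b₀ / u⌉₊ ≤ k₁ * (2 * (b₀ / u)) :=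
          mul_le_mul_of_nonneg_left (by linarith) hk0.le
      _ = 2 * k₁ * b₀ / u := by ring
  -- the number of columns
  obtain ⟨M, hMM⟩ := exists_nat_ge (max 1 (Ck24 d ρ β T₀))
  have hM1 : 0 < M := by
    have h1 : (1 : ℝ) ≤ M := (le_max_left _ _).trans hMM
    have : (0 : ℝ) < M := by linarith
    exact_mod_cast this
  have hMC : Real.sqrt (Ck24 d ρ β T₀ / M) ≤ 1 := by
    have hM0 : (0 : ℝ) < M := by exact_mod_cast hM1
    rw [Real.sqrt_le_left one_pos.le, one_pow, div_le_one hM0]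
    exact (le_max_right _ _).trans hMM
  obtain ⟨Rz, hRz⟩ := box_ex24 z0
  obtain ⟨Q, hQ⟩ : ∃ Q, Q = max m Rz := ⟨_, rfl⟩
  have hQ1 : m ≤ Q := by rw [hQ]; exact le_max_left _ _
  have hQ2 : Rz ≤ Q := by rw [hQ]; exact le_max_right _ _
  obtain ⟨R, hR⟩ : ∃ R, R = max (max (3 * J) (3 * m)) (max (2 * Q) (M * (2 * (2 * T₀ + 1)))) :=
    ⟨_, rfl⟩
  have hR1 : 3 * J ≤ R := by rw [hR]; exact (le_max_left _ _).trans (le_max_left _ _)
  have hR2 : 3 * m ≤ R := by rw [hR]; exact (le_max_right _ _).trans (le_max_left _ _)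
  have hR3 : 2 * Q ≤ R := by rw [hR]; exact (le_max_left _ _).trans (le_max_right _ _)
  have hR4 : M * (2 * (2 * T₀ + 1)) ≤ R := by
    rw [hR]
    exact (le_max_right _ _).trans (le_max_right _ _)
  -- the length
  obtain ⟨n, hnN, hnV⟩ := hfr R (max (max n₀ J) (max m T₀))
  obtain ⟨n', hnn', hn1, hinc, hVn'⟩ := hnear R n hR1
    (((le_max_right n₀ J).trans (le_max_left _ _)).trans hnN) hnV
  have hn'0 : n₀ ≤ n' := (((le_max_left n₀ J).trans (le_max_left _ _)).trans hnN).trans hnn'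
  have hn'm : m ≤ n' := (((le_max_left _ _).trans (le_max_right _ _)).trans hnN).trans hnn'
  have hn'T : T₀ ≤ n' := (((le_max_right _ _).trans (le_max_right _ _)).trans hnN).trans hnn'
  -- any resampling of the rows `≤ T₀`
  have hres : ∀ {Ω : Type} [MeasurableSpace Ω] {P : Measure Ω} [IsProbabilityMeasure P]
      {Θ : Env d → Ω → Env d}, Rs24 ρ T₀ P Θ →
      ∫ w, |X β h (Θ w.1 w.2.1) n' - X β h (Θ w.1 w.2.2) n'| ∂((law d ρ).prod (P.prod P)) ≤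
        2 * K' + 1 := by
    intro Ω _ P _ Θ H
    refine (hr10 hd hρ H β h n' hM1 (s := K') fun j hj => ?_).trans (by linarith)
    exact hVn' _ (box_mono24 hR4 (yy_mem10 hd T₀ hj)) (even_yy10 hd T₀ j)
  obtain ⟨q, T, hTi, hTT, hlt⟩ := hn₀ n' hn'0 (fun τ hτ1 hτT => by
    have h1 := hz0 n' τ (hτT.trans hn'T)
    have hr1 := (U_dist24 hd hρ β h n' τ).trans (hres (rs_mono24 (rs_spl24 τ) hτT))
    have h2 := hi10 hd hρ β h (n := n') (m := m) (τ := τ) (R := Q) z0 hQ1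
      (box_mono24 hQ2 hRz) hr1 hzp (fun v hv hev => hVn' v (box_mono24 hR3 hv) hev)
    obtain ⟨h3, h4, h5⟩ := hm₂ m ((le_max_right _ _).trans hmm)
    rw [Real.sqrt_sq (by linarith)] at h5
    have h6 := hm₁ m ((le_max_left _ _).trans hmm) n' hn'm
      (fun x hx hev => hVn' x (box_mono24 hR2 hx) hev)
    have h7 : b₀ * (law d ρ).real {η | ¬ GoodN β h n' τ b₀ ε η} ≤ 8 * (ε₂ * m) := by
      refine h1.trans ?_
      linarith
    have h8 : 8 * (ε₂ * m) ≤ b₀ * δ := by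
      have h9 : 8 * (ε₂ * m) ≤ 8 * (ε₂ * (2 * k₁ * b₀ / u)) := by
        refine mul_le_mul_of_nonneg_left ?_ (by norm_num)
        exact mul_le_mul_of_nonneg_left hmu hε₂0.le
      refine h9.trans (le_of_eq ?_)
      rw [hε₂]
      field_simp
      ring
    exact le_of_mul_le_mul_left (h7.trans h8) hb0) hinc
  haveI := M66.prob_rb hb
  exact absurd (hres (rs_mxJ24 hb hW hTi hTT)) (not_le.2 hlt)

end Pool.Agent.W_7d29a1_NV10
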