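import Pool.Agent.W_7d29a1_NV10.All10
import Pool.Agent.W_7d29a1_NV24.Tr24

/-!
Spatial roughness on the even sublattice: one fifth of all points of every large box are even and
rough, and the transfer to an arbitrary probability space.
-/

set_option autoImplicit false

namespace Pool.Agent.W_7d29a1_NV10

open MeasureTheory ProbabilityTheory Filter Topology Pool.Agent.W_MP_7d29a1_pr
  Pool.Agent.W_7d29a1_h46 Pool.Agent.W_7d29a1_h46u Pool.Agent.W_7d29a1_D2.B35
  Pool.Agent.W_7d29a1_Q29 Pool.Agent.W_7d29a1_NV Pool.Agent.W_7d29a1_NV24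

variable {d : ℕ} {ρ : Measure ℝ} [IsProbabilityMeasure ρ]

lemma box_big10 (d r : ℕ) : ∃ R₀ : ℕ, ∀ R, R₀ ≤ R →
    4 * (2 * R + 1) ^ d ≤ 5 * (2 * (R - r) + 1) ^ d ∧ r ≤ R := by
  refine ⟨5 * d * r + r, fun R hR => ?_⟩
  have hr : r ≤ R := by nlinarith [Nat.zero_le (5 * d * r)]
  refine ⟨?_, hr⟩
  have h0 : (0 : ℝ) < 2 * R + 1 := by positivity
  have h1 : ((2 * (R - r) + 1 : ℕ) : ℝ) = (2 * R + 1) * (1 + -(2 * r / (2 * R + 1))) := by
    push_cast [Nat.cast_sub hr]
    field_simp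
    ring
  have hRr : (5 * d * r + r : ℝ) ≤ R := by exact_mod_cast hR
  have h2 : (2 * r / (2 * R + 1) : ℝ) ≤ 1 := by
    rw [div_le_one h0]
    have : (r : ℝ) ≤ R := by exact_mod_cast hr
    linarith
  have h3 := one_add_mul_le_pow (a := -(2 * r / (2 * R + 1) : ℝ)) (by linarith) d
  have h4 : (d : ℝ) * (2 * r / (2 * R + 1)) ≤ 1 / 5 := by
    rw [← mul_div_assoc, div_le_iff₀ h0]
    have hr0 : (0 : ℝ) ≤ r := Nat.cast_nonneg r
    nlinarith
  have h5 : (4 * (2 * R + 1) ^ d : ℝ) ≤ 5 * ((2 * (R - r) + 1 : ℕ) : ℝ) ^ d := by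
    rw [h1, mul_pow]
    have h6 : (4 / 5 : ℝ) ≤ (1 + -(2 * r / (2 * R + 1))) ^ d := by
      refine le_trans ?_ h3
      linarith
    have h7 : (0 : ℝ) ≤ (2 * R + 1) ^ d := by positivity
    nlinarith
  exact_mod_cast h5

/-- The even sites of a box are at least half of the sites of the box of radius one less. -/
lemma evB_half10 (hd : 0 < d) (R : ℕ) : (2 * R + 1) ^ d ≤ 2 * (AvgS10.evB d (R + 1)).card := by
  classical
  set i₀ : Fin d := ⟨0, hd⟩
  have hsub : boxF d R ⊆ AvgS10.evB d (R + 1) ∪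
      (AvgS10.evB d (R + 1)).image (fun z => z - Pi.single i₀ 1) := by
    intro z hz
    rw [mem_boxF] at hz
    rw [Finset.mem_union]
    by_cases h8 : Even (∑ j, z j)
    · refine Or.inl (AvgS10.mem_evB.2 ⟨?_, h8⟩)
      rw [mem_boxF]
      intro i
      refine (hz i).trans ?_
      push_cast
      linarith
    · refine Or.inr (Finset.mem_image.2 ⟨z + Pi.single i₀ 1, AvgS10.mem_evB.2 ⟨?_, ?_⟩, ?_⟩)
      · rw [mem_boxF]
        intro i
        rw [Pi.add_apply]
        have h1 := hz i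
        have h2 : |(Pi.single i₀ (1 : ℤ) : Site d) i| ≤ 1 := by
          rw [Pi.single_apply]
          split_ifs <;> simp
        have h3 := abs_add_le (z i) ((Pi.single i₀ (1 : ℤ) : Site d) i)
        push_cast
        linarith
      · simp only [Pi.add_apply]
        rw [Finset.sum_add_distrib]
        have h1 : ∑ j, (Pi.single i₀ (1 : ℤ) : Site d) j = 1 := by
          rw [Finset.sum_pi_single']
          simp
        rw [h1]
        rw [Int.not_even_iff_odd] at h8
        exact h8.add_odd odd_one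
      · simp
  have h3 := Finset.card_le_card hsub
  have h4 := Finset.card_union_le (AvgS10.evB d (R + 1))
    ((AvgS10.evB d (R + 1)).image (fun z => z - Pi.single i₀ 1))
  have h5 := Finset.card_image_le (s := AvgS10.evB d (R + 1)) (f := fun z => z - Pi.single i₀ 1)
  rw [card_boxF] at h3
  omega

open Classical in
/-- One fifth of the points of every large box are even and rough. -/
theorem srCnt10 (hd : 0 < d) (hρ : EM ρ) (hnc : ∀ c : ℝ, ρ {c} ≠ 1) {β : ℝ} (hβ : 0 < β)
    (h : Vec d) (hV : VSD ρ β h) (K : ℝ) :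
    ∃ R₀ n₀ : ℕ, ∀ R n : ℕ, R₀ ≤ R → n₀ ≤ n →
      (2 * R + 1) ^ d ≤ 5 * ((boxF d R).filter fun y => Even (∑ j, y j) ∧
        K < AvgS10.spi ρ β h n y).card := by
  obtain ⟨r, n₀, H⟩ := srAll10 hd hρ hnc hβ h hV (2 * K)
  obtain ⟨R₀, hR₀⟩ := box_big10 d (r + 1)
  refine ⟨R₀, n₀, fun R n hR hn => ?_⟩
  obtain ⟨y, hy, hev, hK⟩ := H n hn
  have hK' : 2 * K < AvgS10.spi ρ β h n y := hK
  obtain ⟨h1, h2⟩ := hR₀ R hR
  set G := (boxF d R).filter fun y => Even (∑ j, y j) ∧ K < AvgS10.spi ρ β h n y with hG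
  have hsub : AvgS10.evB d (R - r) ⊆ G ∪ G.image (fun z => y - z) := by
    intro z hz
    obtain ⟨hz, hzev⟩ := AvgS10.mem_evB.1 hz
    rw [mem_boxF] at hz hy
    have hz1 : z ∈ boxF d R := by
      rw [mem_boxF]
      intro i
      refine (hz i).trans ?_
      exact_mod_cast Nat.sub_le R r
    have hz2 : y - z ∈ boxF d R := by
      rw [mem_boxF]
      intro i
      have h3 := abs_sub (y i) (z i)
      have h4 := hz i
      have h5 := hy i
      rw [Pi.sub_apply]
      have h6 : ((R - r : ℕ) : ℤ) = (R : ℤ) - r := by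
        rw [Nat.cast_sub (by omega)]
      rw [h6] at h4
      linarith
    have hz3 : Even (∑ j, (y - z) j) := by
      simp only [Pi.sub_apply, Finset.sum_sub_distrib]
      exact hev.sub hzev
    have h7 : AvgS10.spi ρ β h n y ≤ AvgS10.spi ρ β h n z + AvgS10.spi ρ β h n (y - z) :=
      sp_tri24 hd hρ β h n y z
    rw [Finset.mem_union]
    by_cases h8 : K < AvgS10.spi ρ β h n z
    · exact Or.inl (Finset.mem_filter.2 ⟨hz1, hzev, h8⟩)
    · refine Or.inr (Finset.mem_image.2 ⟨y - z, Finset.mem_filter.2 ⟨hz2, hz3, ?_⟩, ?_⟩)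
      · push Not at h8
        linarith
      · simp
  have h3 := Finset.card_le_card hsub
  have h4 := Finset.card_union_le G (G.image (fun z => y - z))
  have h5 := Finset.card_image_le (s := G) (f := fun z => y - z)
  have h6 := evB_half10 hd (R - (r + 1))
  have h7 : R - (r + 1) + 1 = R - r := by omega
  rw [h7] at h6
  omega

open Classical in
/-- **Theorem SR, even form**, on an arbitrary probability space. -/
theorem srTr10 {Ω : Type*} [MeasurableSpace Ω] {μ : Measure Ω} [IsProbabilityMeasure μ]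
    {ω : ℕ × Site d → Ω → ℝ} (hd : 0 < d) (hω : IID μ ρ ω) (hρ : EM ρ)
    (hnc : ∀ c : ℝ, ρ {c} ≠ 1) {β : ℝ} (hβ : 0 < β) (h : Vec d) (hV : VSD ρ β h) (K : ℝ) :
    ∃ R₀ n₀ : ℕ, ∀ R n : ℕ, R₀ ≤ R → n₀ ≤ n →
      (2 * R + 1) ^ d ≤ 5 * {y : Site d | (∀ i, |y i| ≤ R) ∧ Even (∑ i, y i) ∧
        K < ∫ x, |Real.log (Zn β h (fun p => ω (p.1, p.2 + y) x) n) -
          Real.log (Zn β h (fun p => ω p x) n)| ∂μ}.ncard := by
  obtain ⟨R₀, n₀, H⟩ := srCnt10 hd hρ hnc hβ h hV K
  refine ⟨R₀, n₀, fun R n hR hn => ?_⟩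
  have key : ∀ y : Site d, ∫ x, |Real.log (Zn β h (fun p => ω (p.1, p.2 + y) x) n) -
      Real.log (Zn β h (fun p => ω p x) n)| ∂μ = AvgS10.spi ρ β h n y := by
    intro y
    have m1 : Measurable fun η : Env d => |X β h (sh 0 y η) n - X β h η n| :=
      measurable_norm.comp (((measurable_X β h n).comp (measurable_sh 0 y)).sub
        (measurable_X β h n))
    unfold AvgS10.spi
    rw [← StrA_int hω m1]
    refine integral_congr_ae (Filter.Eventually.of_forall fun x => ?_)
    have e1 : (fun p : ℕ × Site d => ω (p.1, p.2 + y) x) = sh 0 y (fun p => ω p x) := rfl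
    simp only [e1, StrA_log hd]
    congr 1
    ring
  have e2 : {y : Site d | (∀ i, |y i| ≤ R) ∧ Even (∑ i, y i) ∧
        K < ∫ x, |Real.log (Zn β h (fun p => ω (p.1, p.2 + y) x) n) -
          Real.log (Zn β h (fun p => ω p x) n)| ∂μ} =
      (((boxF d R).filter fun y => Even (∑ j, y j) ∧ K < AvgS10.spi ρ β h n y :
        Finset (Site d)) : Set (Site d)) := by
    ext y
    simp only [Set.mem_ofPred_eq, Finset.coe_filter, mem_boxF, key]
  rw [e2, Set.ncard_coe_finset]
  exact H R n hR hn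

end Pool.Agent.W_7d29a1_NV10
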